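import Pool.Agent.TH678.GS.Orc

/-! One error -/

set_option autoImplicit false

namespace Pool.Agent.TH678.GS

open Finset H568R2 Pool.Agent.H676 Pool.Agent.NPC Pool.Agent.H622R2 Pool.Agent.H620R2.Gauge
  Pool.Agent.H591R3.PHG Pool.Agent.TH678.ETH Pool.Agent.TH678.HW Pool.Agent.H622R2.Exp
open Pool.Agent.TH678.RS (ev_poly)

/-- the exponent for the number of questions -/
noncomputable def pe (N : Alg) : ℕ := (YAux.poly_bound N.p).choose

theorem pe_spec (N : Alg) (n : ℕ) : N.p.eval n ≤ (n + 2) ^ pe N :=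
  (YAux.poly_bound N.p).choose_spec.2 n

/-- the parameter -/
noncomputable def kk (N : Alg) : ℕ := pe N + 2

theorem numbers (N : Alg) (t s h₂ h₃ Hm L : ℕ) : ∃ u : ℕ, 2 ≤ u ∧ L < u + 11 ∧
    2 ^ (u + 11) * (2 * s + 1 + 2 ^ (512 * u) + 2) ^ pe N < 2 ^ (kk N * (512 * u + 1)) ∧
    8 * (8 * u) * (h₂ * (512 * u + 1) ^ h₃ + 1) ≤ 2 ^ (2 * u) ∧
    (u + 11) + t * (2 * (Hm * (512 * u + 1)) + 1) + 2 + t ≤ 2 ^ (2 * u) := by
  have h1 := ev_poly ((2 * s + 4) ^ pe N) 0
  have h2 := ev_poly (64 * (h₂ * 512 ^ h₃ + 1)) (h₃ + 1)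
  have h3 := ev_poly (13 + 2 * t + 1024 * t * Hm) 1
  obtain ⟨u, ⟨⟨h1, h2⟩, h3⟩, h4, h5⟩ := (((h1.and h2).and h3).and
    ((Filter.eventually_ge_atTop 2).and (Filter.eventually_ge_atTop L))).exists
  have h22 : 2 ^ u ≤ 2 ^ (2 * u) := Nat.pow_le_pow_right (by norm_num) (by omega)
  refine ⟨u, h4, by omega, ?_, ?_, ?_⟩
  · rw [pow_zero, mul_one] at h1
    have e1 : 2 * s + 1 + 2 ^ (512 * u) + 2 ≤ (2 * s + 4) * 2 ^ (512 * u) := by
      have h6 : 1 ≤ 2 ^ (512 * u) := Nat.one_le_two_pow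
      have h7 : (2 * s + 4) * 2 ^ (512 * u) = (2 * s + 3) * 2 ^ (512 * u) + 2 ^ (512 * u) := by
        ring
      have h8 : 2 * s + 3 ≤ (2 * s + 3) * 2 ^ (512 * u) := Nat.le_mul_of_pos_right _ h6
      omega
    calc 2 ^ (u + 11) * (2 * s + 1 + 2 ^ (512 * u) + 2) ^ pe N
        ≤ 2 ^ (u + 11) * ((2 * s + 4) * 2 ^ (512 * u)) ^ pe N :=
          Nat.mul_le_mul_left _ (Nat.pow_le_pow_left e1 _)
      _ = 2 ^ (u + 11) * ((2 * s + 4) ^ pe N * 2 ^ (512 * u * pe N)) := by
          rw [mul_pow, ← pow_mul]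
      _ < 2 ^ (u + 11) * (2 ^ u * 2 ^ (512 * u * pe N)) :=
          Nat.mul_lt_mul_of_pos_left (Nat.mul_lt_mul_of_pos_right h1 (by positivity))
            (by positivity)
      _ = 2 ^ (u + 11 + (u + 512 * u * pe N)) := by rw [← pow_add, ← pow_add]
      _ ≤ 2 ^ (kk N * (512 * u + 1)) := by
          refine Nat.pow_le_pow_right (by norm_num) ?_
          unfold kk
          have e2 : (pe N + 2) * (512 * u + 1) = 512 * u * pe N + pe N + 1024 * u + 2 := by ring
          omega
  · refine le_trans ?_ (h2.le.trans h22)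
    have e1 : (512 * u + 1) ^ h₃ ≤ 512 ^ h₃ * (u + 1) ^ h₃ := by
      rw [← mul_pow]
      exact Nat.pow_le_pow_left (by omega) _
    have e2 : 1 ≤ (u + 1) ^ h₃ := Nat.one_le_pow _ _ (by omega)
    have e3 : h₂ * (512 * u + 1) ^ h₃ + 1 ≤ (h₂ * 512 ^ h₃ + 1) * (u + 1) ^ h₃ := by
      have e4 := Nat.mul_le_mul_left h₂ e1
      have e5 : (h₂ * 512 ^ h₃ + 1) * (u + 1) ^ h₃ =
          h₂ * (512 ^ h₃ * (u + 1) ^ h₃) + (u + 1) ^ h₃ := by ring
      omega
    calc 8 * (8 * u) * (h₂ * (512 * u + 1) ^ h₃ + 1)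
        ≤ 64 * (u + 1) * ((h₂ * 512 ^ h₃ + 1) * (u + 1) ^ h₃) :=
          Nat.mul_le_mul (by omega) e3
      _ = 64 * (h₂ * 512 ^ h₃ + 1) * (u + 1) ^ (h₃ + 1) := by ring
  · refine le_trans ?_ (h3.le.trans h22)
    rw [pow_one]
    have e1 : (13 + 2 * t + 1024 * t * Hm) * (u + 1) =
        13 * u + 13 + 2 * (t * u) + 2 * t + 1024 * (t * Hm * u) + 1024 * (t * Hm) := by ring
    have e2 : t * (2 * (Hm * (512 * u + 1)) + 1) = 1024 * (t * Hm * u) + 2 * (t * Hm) + t := by ring
    rw [e1, e2]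
    omega

theorem dtr_az (E : Oracle) (L : ℕ) (B₀ : Oracle) (w₀ : List Bool) (M t U : ℕ) (as : List ℕ) (β : Bool)
    (M' : Alg) (a b : ℕ) (s : List Bool) :
    DTr (b + 1) (fun z : Idx (Fin (2 ^ U)) (pw as) → Bool =>
      decide (M'.run (upTo a (join E (Az L B₀ w₀ M t (fun s => z (dec w₀.length U as s)) β))) s
        (b + 1) [] = some [true])) := by
  refine dtr_gen M' _ (fun q' => ?_) s (b + 1) []
  rcases q' with _ | ⟨c', q⟩
  · left
    refine ⟨false, fun z => ?_⟩
    unfold upTo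
    show (decide _ && false) = false
    rw [Bool.and_false]
  cases c' with
  | false =>
    left
    exact ⟨decide ((false :: q).length ≤ a) && E q, fun z => rfl⟩
  | true =>
  have hj : ∀ z : Idx (Fin (2 ^ U)) (pw as) → Bool,
      upTo a (join E (Az L B₀ w₀ M t (fun s => z (dec w₀.length U as s)) β)) (true :: q) =
        (decide ((true :: q).length ≤ a) &&
          Az L B₀ w₀ M t (fun s => z (dec w₀.length U as s)) β q) := fun z => rfl
  by_cases h1 : (true :: q).length ≤ a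
  · by_cases h2 : q.length ≤ L
    · left
      refine ⟨B₀ q, fun z => ?_⟩
      rw [hj, az_short h2, decide_eq_true h1, Bool.true_and]
    · by_cases h3 : Vd w₀ M t q
      · right
        refine ⟨dec w₀.length U as q, fun c => xor c β, fun z => ?_⟩
        rw [hj, az_on (by omega) h3, decide_eq_true h1, Bool.true_and]
      · left
        refine ⟨false, fun z => ?_⟩
        rw [hj, az_off (by omega) h3, Bool.and_false]
  · left
    refine ⟨false, fun z => ?_⟩
    rw [hj, decide_eq_false h1, Bool.false_and]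

open Classical in
/-- **One error.** -/
theorem core (E : Oracle) (t : ℕ) (N M' : Alg) (σ : List Bool) (H : ℕ → ℕ) (b₁ : Bool)
    (B₀ : Oracle) (L : ℕ) :
    ∃ A : Oracle, (∀ u : List Bool, u.length ≤ L → A u = B₀ u) ∧ ∃ x : List Bool,
      ∀ ρ, N.out (join E A) (pairBits σ x) = some ρ → ¬ ((x, kk N) ∈ Lg t (join E A) ↔
        Qs (fun i => H i * (Nat.log 2 x.length + 1))
          (Tail M' (join E A) (H t * (Nat.log 2 x.length + 1) ^ H (t + 1))
            (H (t + 2) * (Nat.log 2 x.length + 1) ^ H (t + 3))) t b₁ ρ) := by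
  by_contra hcon
  push Not at hcon
  set Hm : ℕ := ∑ i ∈ range t, H i with hHm
  obtain ⟨u, hu2, hL, hc, hd, he⟩ := numbers N t σ.length (H (t + 2)) (H (t + 3)) Hm L
  set κ := kk N with hκ
  set q : ℕ := 512 * u with hq
  set U : ℕ := u + 11 with hU
  set M : ℕ := (κ + 1) * (q + 1) with hM
  have hn : 5 ≤ 8 * u := by omega
  obtain ⟨as, hlen, has, hX⟩ := exists_sizes (n := 8 * u) hn t _ (inv_start hn)
  -- the inputs
  have hUq : 2 * U + 1 ≤ 2 ^ q := by
    have h1 : q < 2 ^ q := Nat.lt_two_pow_self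
    omega
  set x : Fin (2 ^ U) → List Bool := fun j =>
    pairBits (bitsOf U j.val) (List.replicate (2 ^ q - (2 * U + 1)) true) with hx
  have hxl : ∀ j, (x j).length = 2 ^ q := by
    intro j
    rw [hx]
    show (pairBits (bitsOf U j.val) (List.replicate (2 ^ q - (2 * U + 1)) true)).length = 2 ^ q
    rw [length_pairBits, length_bitsOf, List.length_replicate]
    omega
  have hxlog : ∀ j, Nat.log 2 (x j).length = q := by
    intro j
    rw [hxl, Nat.log_pow (by norm_num)]
  have hx1 : ∀ j, (unpair (x j)).1 = bitsOf U j.val := by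
    intro j
    show (unpair (pairBits (bitsOf U j.val) _)).1 = _
    rw [unpair_pairBits]
  -- the oracle without a hidden forest
  set A₀ : Oracle := fun v => if v.length ≤ L then B₀ v else false with hA₀
  have hA₀' : ∀ v : List Bool, v.length ≤ L → A₀ v = B₀ v := fun v hv => if_pos hv
  choose ρ hρ using fun j => hcon A₀ hA₀' (x j)
  obtain ⟨qb, hqb⟩ := N.out_local
  choose Q hQ1 hQ2 hQ3 using fun j => hqb (join E A₀) (pairBits σ (x j))
  have hS : (univ.biUnion fun j => (Q j).image List.tail).card < 2 ^ (κ * (q + 1)) := by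
    refine lt_of_le_of_lt ?_ hc
    refine (card_biUnion_le).trans ?_
    have h1 : ∀ j ∈ (univ : Finset (Fin (2 ^ U))), ((Q j).image List.tail).card ≤
        (2 * σ.length + 1 + 2 ^ q + 2) ^ pe N := by
      intro j _
      refine card_image_le.trans ((hQ1 j).trans ?_)
      rw [length_pairBits, hxl]
      exact pe_spec N _
    refine (Finset.sum_le_card_nsmul _ _ _ h1).trans ?_
    rw [Finset.card_univ, Fintype.card_fin, smul_eq_mul]
  obtain ⟨w₀, hw₀, hw₀'⟩ := exists_unseen (M := M) (t := t) hS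
  -- the oracles with a hidden forest
  set Ao : (Idx (Fin (2 ^ U)) (pw as) → Bool) → Oracle := fun z =>
    Az L B₀ w₀ M t (fun s => z (dec w₀.length U as s)) (bt t false) with hAo
  have hAo1 : ∀ z, ∀ v : List Bool, v.length ≤ L → Ao z v = B₀ v := fun z v hv => az_short hv
  have hAo2 : ∀ z j, N.out (join E (Ao z)) (pairBits σ (x j)) = some (ρ j) := by
    intro z j
    rw [hQ3 j (join E (Ao z)) fun v' hv => ?_]
    · exact (hρ j).1
    · rcases v' with _ | ⟨c, v⟩
      · rfl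
      cases c with
      | false => rfl
      | true =>
        have h1 : ¬ Vd w₀ M t v := hw₀' v (mem_biUnion.2 ⟨j, mem_univ _,
          mem_image.2 ⟨true :: v, hv, rfl⟩⟩)
        show Ao z v = A₀ v
        by_cases h2 : v.length ≤ L
        · rw [hAo1 z v h2, hA₀' v h2]
        · have e1 : Ao z v = false := az_off (by omega) h1
          have e2 : A₀ v = false := if_neg h2
          rw [e1, e2]
  set m : ℕ → ℕ := fun i => H i * (q + 1) with hm
  set a : ℕ := H t * (q + 1) ^ H (t + 1) with ha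
  set b : ℕ := H (t + 2) * (q + 1) ^ H (t + 3) with hb
  set mm : ℕ := Hm * (q + 1) with hmm
  have hmm' : ∀ i < t, m i ≤ mm := by
    intro i hi
    refine Nat.mul_le_mul_right _ ?_
    exact Finset.single_le_sum (f := H) (fun i _ => Nat.zero_le _) (mem_range.2 hi)
  have hiff : ∀ z j, (Tr (pw as) z j = false ↔
      Qs m (Tail M' (join E (Ao z)) a b) t b₁ (ρ j)) := by
    intro z j
    obtain ⟨ρ', h1, h2⟩ := hcon (Ao z) (hAo1 z) (x j)
    rw [hAo2 z j, Option.some.injEq] at h1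
    subst h1
    rw [hxlog] at h2
    rw [← h2]
    obtain ⟨a', as', rfl⟩ : ∃ a' as', as = a' :: as' := by
      cases as with
      | nil => simp at hlen
      | cons a' as' => exact ⟨a', as', rfl⟩
    have hlen' : as'.length = t := by simpa using hlen
    have h3 := lg_iff (E := E) (L := L) (B₀ := B₀) (w₀ := w₀) (M := M) (t := t) (κ := κ) (q := q)
      (lf := fun s => z (dec w₀.length U (a' :: as') s)) (x := x j) (hxlog j)
      (by rw [hx1, length_bitsOf]; exact hL) ?_ ?_ a' hlen'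
    · rw [h3, hx1, ← Tr_ev (a' :: as') (by simp) ?_ ?_ z j]
      · intro a'' h4
        have := has a'' h4
        omega
      · intro a'' h4
        have h5 := has a'' h4
        rw [hw₀, hM]
        have e1 : (κ + 1) * (q + 1) = κ * (q + 1) + (q + 1) := by ring
        omega
    · rw [hM]
      refine Nat.mul_le_mul_right _ ?_
      unfold hP
      omega
    · rw [hx1, length_bitsOf, hM]
      unfold hP
      have e1 : (2 * κ + (3 * t + 8)) * (q + 1) =
          2 * ((κ + 1) * (q + 1)) + 3 * (t * (q + 1)) + 6 * (q + 1) := by ring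
      have e2 : t * (2 * (q + 1) + 1) = 2 * (t * (q + 1)) + t := by ring
      have e3 : t * (q + 1) = t * q + t := by ring
      rw [e1, e2, e3]
      omega
  -- the contradiction
  set base : List Bool → List Bool := fun s => ρ (ix U s) with hbase
  set F : List Bool → (Idx (Fin (2 ^ U)) (8 * (8 * u) :: pw as) → Bool) → Bool := fun s z =>
    decide (M'.run (upTo a (join E (Ao (nor (G := Idx (Fin (2 ^ U)) (pw as)) z)))) s (b + 1) [] =
      some [true]) with hF
  have hFd : ∀ y : List Bool, y.length ≤ U + t * (2 * mm + 1) →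
      DTr (2 ^ (2 * u)) (fun z => F (fx m base 0 t y) z) := by
    intro y _
    have h1 := dtr_nor (G := Idx (Fin (2 ^ U)) (pw as)) (8 * (8 * u)) (b + 1) _
      (dtr_az E L B₀ w₀ M t U as (bt t false) M' a b (fx m base 0 t y))
    exact h1.mono hd
  have hcard : 2 ^ (2 * u) * Fintype.card (Fin (2 ^ U)) ≤ 2 ^ (3 * u + 11) := by
    rw [Fintype.card_fin, ← pow_add]
    exact Nat.pow_le_pow_right (by norm_num) (by omega)
  have hlen2 : (pw as).length = t + 1 := by
    rw [pw, List.length_map]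
    exact hlen
  have hmain := main_leaf (X := Fin (2 ^ U)) (n := 8 * u) (u := u) (D := 2 ^ (3 * u + 11))
    (g := 2 ^ (u + 9)) hn le_rfl hcard t (pw as) hlen2 mm U
    (fun y z => F (fx m base 0 t y) z) hFd (fun j => bitsOf U j.val)
    (fun j => le_of_eq (length_bitsOf _ _)) b₁
  have hMs : Ms (1 / 2) (8 * (8 * u) :: pw as) (fun _ => none)
      (fun j : Fin (2 ^ U) => QF mm (fun y z => F (fx m base 0 t y) z) t b₁ (bitsOf U j.val)) =
        1 := by
    unfold Ms
    have h1 : ∀ z : Idx (Fin (2 ^ U)) (8 * (8 * u) :: pw as) → Bool, ∀ j : Fin (2 ^ U),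
        QF mm (fun y z => F (fx m base 0 t y) z) t b₁ (bitsOf U j.val) z ≠
          Tr (8 * (8 * u) :: pw as) (val (fun _ => none) z) j := by
      intro z j h
      have h2 : Tr (8 * (8 * u) :: pw as) (val (fun _ => none) z) j =
          Tr (pw as) (nor (G := Idx (Fin (2 ^ U)) (pw as)) z) j := rfl
      rw [h2] at h
      have h3 := qf_qs (m := m) (base := base) hmm' (F := F)
        (T := Tail M' (join E (Ao (nor (G := Idx (Fin (2 ^ U)) (pw as)) z))) a b) z (fun s => by
          rw [hF]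
          unfold Tail
          exact decide_eq_true_iff) t le_rfl b₁ (bitsOf U j.val) (ρ j) (by
            rw [Nat.sub_self]
            show ρ (ix U (bitsOf U j.val)) = ρ j
            rw [ix_bitsOf])
      rw [← hiff, h] at h3
      cases hT : Tr (pw as) (nor (G := Idx (Fin (2 ^ U)) (pw as)) z) j
      · rw [hT] at h3
        exact Bool.false_ne_true (h3.2 rfl)
      · rw [hT] at h3
        exact Bool.noConfusion (h3.1 rfl)
    refine Eq.trans (congrArg (Ex (ber (1 / 2))) (funext fun z => ?_)) (Ex_const (ber_sum_m _) 1)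
    exact if_pos (h1 z)
  rw [hMs] at hmain
  have hlaw := hX (Fin (2 ^ U)) (2 ^ (3 * u + 11)) (2 ^ (u + 9)) (by
      calc 16 * 2 ^ (3 * u + 11) = 2 ^ (3 * u + 15) := by ring
        _ ≤ 2 ^ (4 * (8 * u)) := Nat.pow_le_pow_right (by norm_num) (by omega))
    (by
      rw [Fintype.card_fin]
      exact le_of_eq (by rw [hU]; ring))
  rw [Fintype.card_fin] at hlaw
  have hfin := final_numbers hn (le_refl (8 * u))
  have h3 : (t : ℝ) * (2 ^ (U + t * (2 * mm + 1) + 2) * (1 / 2) ^ (2 ^ (2 * u) + 1)) ≤ 1 / 2 := by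
    have h4 : (t : ℝ) ≤ 2 ^ t := by exact_mod_cast (Nat.lt_two_pow_self (n := t)).le
    have h5 : (0 : ℝ) ≤ 2 ^ (U + t * (2 * mm + 1) + 2) * (1 / 2) ^ (2 ^ (2 * u) + 1) := by positivity
    have h6 : (2 : ℝ) ^ (U + t * (2 * mm + 1) + 2 + t) ≤ 2 ^ (2 ^ (2 * u)) :=
      pow_le_pow_right₀ (by norm_num) he
    calc (t : ℝ) * (2 ^ (U + t * (2 * mm + 1) + 2) * (1 / 2) ^ (2 ^ (2 * u) + 1))
        ≤ 2 ^ t * (2 ^ (U + t * (2 * mm + 1) + 2) * (1 / 2) ^ (2 ^ (2 * u) + 1)) :=
          mul_le_mul_of_nonneg_right h4 h5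
      _ = 2 ^ (U + t * (2 * mm + 1) + 2 + t) * (1 / 2) ^ (2 ^ (2 * u)) * (1 / 2) := by
          rw [pow_add (2 : ℝ) (U + t * (2 * mm + 1) + 2) t, pow_succ]
          ring
      _ ≤ 2 ^ (2 ^ (2 * u)) * (1 / 2) ^ (2 ^ (2 * u)) * (1 / 2) := by
          gcongr
      _ = 1 / 2 := by
          rw [← mul_pow]
          norm_num
  have h4 : (3 : ℝ) * (1 / 2) ^ (2 ^ u) ≤ 3 / 16 := by
    have h5 : ((1 : ℝ) / 2) ^ (2 ^ u) ≤ (1 / 2) ^ 4 := by
      refine pow_le_pow_of_le_one (by norm_num) (by norm_num) ?_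
      calc 4 = 2 ^ 2 := by norm_num
        _ ≤ 2 ^ u := Nat.pow_le_pow_right (by norm_num) hu2
    norm_num at h5 ⊢
    linarith
  linarith

end Pool.Agent.TH678.GS
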