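import Pool.Agent.TH678.HW.Defs
import Pool.Agent.NPC.Dec

/-!
# All levels of the W-hierarchy relative to an oracle
-/

set_option autoImplicit false

namespace Pool.Agent.TH678.GS

open Pool.Agent.NPC Pool.Agent.H620R2.Gauge Pool.Agent.TH678.ETH Pool.Agent.TH678.WP
  Pool.Agent.TH678.HW

/-- `t` alternating quantifiers over strings, the first one existential if `b` is true and universal
otherwise, in front of `T`. The quantifier which is followed by `i` further ones ranges over the
strings of at most `m i` bits. -/
def Qs (m : ℕ → ℕ) (T : List Bool → Prop) : ℕ → Bool → List Bool → Prop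
  | 0, _, y => T y
  | i + 1, true, y => ∃ v : List Bool, v.length ≤ m i ∧ Qs m T i false (pairBits v y)
  | i + 1, false, y => ∀ v : List Bool, v.length ≤ m i → Qs m T i true (pairBits v y)

/-- The classes `W[t]` relative to `A`, where `W[0]` is `FPT`: after a computation `R` in time
`f k * poly |x|` relative to `A`, at most `n = h k * log |x|` bits `w` are guessed; then there are
`t - 1` alternating quantifiers, the first one universal, over the strings of at most `log |x|` bits;
and then the algorithm `M` asks at most `h k` questions, of at most `n` bits. -/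
def InW (A : Oracle) : ℕ → Set (List Bool × ℕ) → Prop
  | 0, Q => InFPT A Q
  | t + 1, Q => ∃ (π : ℕ → List Bool) (h : ℕ → ℕ) (R : List Bool → List Bool) (M : Alg),
      Computable π ∧ Computable h ∧ IsFP A R ∧ ∀ x k, (x, k) ∈ Q ↔
        ∃ w : List Bool, w.length ≤ h k * (Nat.log 2 x.length + 1) ∧
          Qs (fun _ => Nat.log 2 x.length + 1)
            (Tail M A (h k * (Nat.log 2 x.length + 1)) (h k)) t false
            (pairBits w (R (pairBits (π k) x)))

/-- The disjoint union of the oracles `Q` and `A`. -/
def join (Q A : Oracle) : Oracle
  | [] => false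
  | false :: z => Q z
  | true :: z => A z

/-- A wide and nonuniform class with `t` alternating quantifiers, the first one existential if `b` is
true and universal otherwise: all the quantifiers range over `h k * log |x|` bits (as in the class
`A[t]`), where `h` may depend on the quantifier, and then there may be
`h' k * (log |x|) ^ h'' k` questions. All these functions of `k` are arbitrary. -/
def InWide (A : Oracle) (b : Bool) (t : ℕ) (Q : Set (List Bool × ℕ)) : Prop :=
  ∃ (π : ℕ → List Bool) (h : ℕ → ℕ → ℕ) (R : List Bool → List Bool) (M : Alg),
    IsFP A R ∧ ∀ x k, (x, k) ∈ Q ↔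
      Qs (fun i => h i k * (Nat.log 2 x.length + 1))
        (Tail M A (h t k * (Nat.log 2 x.length + 1) ^ h (t + 1) k)
          (h (t + 2) k * (Nat.log 2 x.length + 1) ^ h (t + 3) k)) t b (R (pairBits (π k) x))

/-- **The hard problem of the level `t + 1`**: given `x`, the code of a pair `(u, u')`, and `k`; let
`n = (2 k + 3 t + 8) * log |x|`. Are there at most `n` bits `w` such that for all `v₁` there is `v₂`
such that for all `v₃`, and so on, with `t` alternating quantifiers over the strings of at most
`log |x|` bits, the string `⟨v_t, …, ⟨v₁, ⟨w, u⟩⟩ … ⟩` has less than `n` bits and is in `A`? -/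
def Hd (t : ℕ) (A : Oracle) : Set (List Bool × ℕ) :=
  {p | ∃ w : List Bool, w.length ≤ (2 * p.2 + (3 * t + 8)) * (Nat.log 2 p.1.length + 1) ∧
    Qs (fun _ => Nat.log 2 p.1.length + 1)
      (fun s => s.length < (2 * p.2 + (3 * t + 8)) * (Nat.log 2 p.1.length + 1) ∧ A s = true)
      t false (pairBits w (unpair p.1).1)}

end Pool.Agent.TH678.GS
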