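import Pool.Agent.TH678.GS.Tree
import Pool.Agent.H620R2.Gauge.Dt

/-! Decision trees, and the strings in the wide class -/

set_option autoImplicit false

namespace Pool.Agent.TH678.GS

open Finset H568R2 Pool.Agent.H676 Pool.Agent.NPC Pool.Agent.H620R2.Gauge Pool.Agent.H591R3.PHG

/-- An algorithm is a shallow decision tree, if every value of the oracle depends on one variable. -/
theorem dtr_gen (M : Alg) {G : Type} [Fintype G] [DecidableEq G] (O : (G → Bool) → Oracle)
    (hO : ∀ q, (∃ b, ∀ z, O z q = b) ∨ ∃ (g : G) (u : Bool → Bool), ∀ z, O z q = u (z g))
    (y : List Bool) : ∀ (n : ℕ) (acc : List Bool),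
      DTr n (fun z : G → Bool => decide (M.run (O z) y n acc = some [true])) := by
  intro n
  induction n with
  | zero =>
    intro acc
    exact ⟨false, fun a => by simp [Alg.run]⟩
  | succ n ih =>
    intro acc
    rcases hq : M.D (pairBits y acc) with _ | ⟨c, q⟩
    · exact DTr.const ⟨false, fun a => by simp [Alg.run, hq]⟩
    · cases c with
      | true => exact DTr.const ⟨decide (q = [true]), fun a => by simp [Alg.run, hq]⟩
      | false =>
        rcases hO q with ⟨b, hb⟩ | ⟨g, u, hu⟩
        · have h2 : (fun z : G → Bool => decide (M.run (O z) y (n + 1) acc = some [true])) =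
              fun z => decide (M.run (O z) y n (acc ++ [b]) = some [true]) := by
            funext z
            simp only [Alg.run, hq, hb]
          rw [h2]
          exact (ih (acc ++ [b])).succ
        · refine Or.inr ⟨g, fun b => ?_⟩
          have h1 := DTr_update (ih (acc ++ [u b])) g b
          have h2 : (fun z : G → Bool => decide (M.run (O (Function.update z g b)) y (n + 1) acc =
              some [true])) = fun z => decide (M.run (O (Function.update z g b)) y n
                (acc ++ [u b]) = some [true]) := by
            funext z
            simp only [Alg.run, hq, hu, Function.update_self]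
          rw [h2]
          exact h1

/-- the NOR gates with `c` children -/
def nor {G : Type} {c : ℕ} (z : G × Fin c → Bool) : G → Bool :=
  fun g => decide (∀ i : Fin c, z (g, i) = false)

theorem dtr_nor {G : Type} [Fintype G] [DecidableEq G] (c : ℕ) : ∀ (d : ℕ) (f : (G → Bool) → Bool),
    DTr d f → DTr (c * d) (fun z : G × Fin c → Bool => f (nor z)) := by
  intro d
  induction d with
  | zero =>
    rintro f ⟨b, hb⟩
    exact DTr.const ⟨b, fun z => hb _⟩
  | succ d ih =>
    rintro f (⟨b, hb⟩ | ⟨g, hg⟩)
    · exact DTr.const ⟨b, fun z => hb _⟩
    · set S : Finset (G × Fin c) := Finset.univ.map ⟨fun i => (g, i), fun i j h => by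
        simpa using h⟩ with hS
      have hcard : S.card = c := by
        rw [hS, Finset.card_map, Finset.card_univ, Fintype.card_fin]
      have h1 : DTr (S.card + c * d) (fun z : G × Fin c → Bool => f (nor z)) := by
        refine DTr.query S fun π => ?_
        have h2 := ih _ (hg (nor π g))
        refine (congrArg (DTr (c * d)) (funext fun x => ?_)).mp h2
        congr 1
        funext g'
        by_cases hgg : g' = g
        · subst hgg
          rw [Function.update_self]
          unfold nor
          refine decide_eq_decide.2 (forall_congr' fun i => ?_)
          have : ow S π x (g', i) = π (g', i) := by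
            unfold ow
            rw [if_pos]
            rw [hS, Finset.mem_map]
            exact ⟨i, Finset.mem_univ _, rfl⟩
          rw [this]
        · rw [Function.update_of_ne hgg]
          unfold nor
          refine decide_eq_decide.2 (forall_congr' fun i => ?_)
          have : ow S π x (g', i) = x (g', i) := by
            unfold ow
            rw [if_neg]
            rw [hS, Finset.mem_map]
            rintro ⟨i', _, h⟩
            exact hgg (congrArg Prod.fst h).symm
          rw [this]
      rw [hcard] at h1
      have e : c * (d + 1) = c + c * d := by ring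
      rw [e]
      exact h1

/-- the strings are cut, and the last one is replaced -/
def fx (m : ℕ → ℕ) (base : List Bool → List Bool) : ℕ → ℕ → List Bool → List Bool
  | _, 0, s => base s
  | i, n + 1, s => pairBits ((unpair s).1.take (m i)) (fx m base (i + 1) n (unpair s).2)

theorem fx_pair (m : ℕ → ℕ) (base : List Bool → List Bool) (i n : ℕ) (w s : List Bool) :
    fx m base i (n + 1) (pairBits w s) = pairBits (w.take (m i)) (fx m base (i + 1) n s) := by
  show pairBits ((unpair (pairBits w s)).1.take (m i))
    (fx m base (i + 1) n (unpair (pairBits w s)).2) = _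
  rw [unpair_pairBits]

theorem qf_t {I : Type} (m : ℕ) (F : List Bool → (I → Bool) → Bool) (k : ℕ) (y : List Bool)
    (a : I → Bool) : QF m F (k + 1) true y a = true ↔
      ∃ w : List Bool, w.length ≤ m ∧ QF m F k false (pairBits w y) a = true := by
  simp only [QF, decide_eq_true_eq]

theorem qf_f {I : Type} (m : ℕ) (F : List Bool → (I → Bool) → Bool) (k : ℕ) (y : List Bool)
    (a : I → Bool) : QF m F (k + 1) false y a = true ↔
      ∀ w : List Bool, w.length ≤ m → QF m F k true (pairBits w y) a = true := by
  simp only [QF, decide_eq_true_eq]

theorem qf_qs {I : Type} {mm t : ℕ} {m : ℕ → ℕ} {base : List Bool → List Bool}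
    (hm : ∀ i < t, m i ≤ mm) {F : List Bool → (I → Bool) → Bool} {T : List Bool → Prop}
    (z : I → Bool) (hT : ∀ s, F s z = true ↔ T s) : ∀ (j : ℕ), j ≤ t → ∀ (b : Bool)
      (y y' : List Bool), fx m base j (t - j) y = y' →
      (QF mm (fun s => F (fx m base 0 t s)) j b y z = true ↔ Qs m T j b y') := by
  intro j
  induction j with
  | zero =>
    intro _ b y y' hy
    show F (fx m base 0 t y) z = true ↔ T y'
    rw [hT]
    have : fx m base 0 t y = y' := hy
    rw [this]
  | succ j ih =>
    intro hj b y y' hy
    have key : ∀ w : List Bool, fx m base j (t - j) (pairBits w y) = pairBits (w.take (m j)) y' := by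
      intro w
      have e : t - j = (t - (j + 1)) + 1 := by omega
      rw [e, fx_pair, hy]
    have hmj := hm j (by omega)
    cases b with
    | true =>
      rw [qf_t]
      show _ ↔ ∃ v : List Bool, v.length ≤ m j ∧ Qs m T j false (pairBits v y')
      constructor
      · rintro ⟨w, _, hw⟩
        exact ⟨w.take (m j), List.length_take_le _ _,
          (ih (by omega) false _ _ (key w)).1 hw⟩
      · rintro ⟨v, hv, hv2⟩
        refine ⟨v, hv.trans hmj, (ih (by omega) false _ _ (key v)).2 ?_⟩
        rwa [List.take_of_length_le hv]
    | false =>
      rw [qf_f]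
      show _ ↔ ∀ v : List Bool, v.length ≤ m j → Qs m T j true (pairBits v y')
      constructor
      · intro h v hv
        have h1 := (ih (by omega) true _ _ (key v)).1 (h v (hv.trans hmj))
        rwa [List.take_of_length_le hv] at h1
      · intro h w _
        exact (ih (by omega) true _ _ (key w)).2 (h _ (List.length_take_le _ _))

end Pool.Agent.TH678.GS
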