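import Pool.Agent.TH678.GS.Core
import Mathlib.Topology.Baire.Lemmas

/-! The W-hierarchy is strict relative to all generic oracles -/

set_option autoImplicit false

namespace Pool.Agent.TH678.GS

open Pool.Agent.NPC Pool.Agent.H622R2 Pool.Agent.H620R2.Gauge Pool.Agent.H591R3.PHG
  Pool.Agent.TH678.ETH Pool.Agent.TH678.WP Pool.Agent.TH678.HW Pool.Agent.H622R2.Exp
open Pool.Agent.TH678.RS (isOpen_of_loc)

/-- the requirements: `t`, the two algorithms, the advice for `k`, the bounds for `k`, and the type of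
the first quantifier -/
abbrev Jt : Type := ℕ × Alg × Alg × List Bool × List ℕ × Bool

/-- the claim of the wide class -/
def Cl (t : ℕ) (M' : Alg) (H : ℕ → ℕ) (b : Bool) (A : Oracle) (x ρ : List Bool) : Prop :=
  Qs (fun i => H i * (Nat.log 2 x.length + 1))
    (Tail M' A (H t * (Nat.log 2 x.length + 1) ^ H (t + 1))
      (H (t + 2) * (Nat.log 2 x.length + 1) ^ H (t + 3))) t b ρ

/-- the set of the oracles for which the requirement is satisfied -/
def Gj (E : Oracle) (j : Jt) : Set Oracle := {A | ∃ x : List Bool, ∀ ρ,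
  j.2.1.out (join E A) (pairBits j.2.2.2.1 x) = some ρ →
    ¬ ((x, kk j.2.1) ∈ Lg j.1 (join E A) ↔
      Cl j.1 j.2.2.1 (fun i => j.2.2.2.2.1.getD i 0) j.2.2.2.2.2 (join E A) x ρ)}

theorem tail_loc {M : Alg} {E A B : Oracle} {n m : ℕ}
    (h : ∀ u : List Bool, u.length ≤ n → A u = B u) :
    Tail M (join E A) n m = Tail M (join E B) n m := by
  have e : upTo n (join E A) = upTo n (join E B) := by
    funext q
    rcases q with _ | ⟨c, q⟩
    · rfl
    cases c with
    | false => rfl
    | true =>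
      show (decide ((true :: q).length ≤ n) && A q) = (decide ((true :: q).length ≤ n) && B q)
      by_cases hq : (true :: q).length ≤ n
      · rw [h q (by rw [List.length_cons] at hq; omega)]
      · rw [decide_eq_false hq, Bool.false_and, Bool.false_and]
  funext y
  unfold Tail
  rw [e]

theorem cl_loc {t : ℕ} {M' : Alg} {H : ℕ → ℕ} {b : Bool} {E A B : Oracle} {x ρ : List Bool}
    (h : ∀ u : List Bool, u.length ≤ H t * (Nat.log 2 x.length + 1) ^ H (t + 1) → A u = B u) :
    Cl t M' H b (join E A) x ρ ↔ Cl t M' H b (join E B) x ρ := by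
  unfold Cl
  rw [tail_loc h]

theorem lg_loc {t k : ℕ} {E A B : Oracle} {x : List Bool}
    (h : ∀ u : List Bool, u.length ≤ hP t k * (Nat.log 2 x.length + 1) → A u = B u) :
    (x, k) ∈ Lg t (join E A) ↔ (x, k) ∈ Lg t (join E B) := by
  unfold Lg
  rw [Set.mem_ofPred_eq, Set.mem_ofPred_eq]
  simp only [tail_loc h]

theorem open_Gj (E : Oracle) (j : Jt) : IsOpen (Gj E j) := by
  obtain ⟨t, N, M', σ, l, b⟩ := j
  have e : Gj E (t, N, M', σ, l, b) = ⋃ x : List Bool, {A | ∀ ρ,
      N.out (join E A) (pairBits σ x) = some ρ →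
    ¬ ((x, kk N) ∈ Lg t (join E A) ↔ Cl t M' (fun i => l.getD i 0) b (join E A) x ρ)} := by
    ext A
    simp [Gj]
  rw [e]
  refine isOpen_iUnion fun x => ?_
  obtain ⟨qb, hqb⟩ := N.out_local
  refine isOpen_of_loc (max (qb.eval (pairBits σ x).length)
    (max (hP t (kk N) * (Nat.log 2 x.length + 1))
      (l.getD t 0 * (Nat.log 2 x.length + 1) ^ l.getD (t + 1) 0))) fun B B' hB h => ?_
  rw [Set.mem_ofPred_eq] at h ⊢
  intro ρ hρ hiff
  obtain ⟨Q, _, hQ2, hQ3⟩ := hqb (join E B') (pairBits σ x)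
  have h1 : N.out (join E B) (pairBits σ x) = some ρ := by
    rw [hQ3 (join E B) fun q hq => ?_]
    · exact hρ
    · have h2 := hQ2 q hq
      rcases q with _ | ⟨c, q⟩
      · rfl
      cases c with
      | false => rfl
      | true =>
        refine hB q (le_trans ?_ (h2.trans (le_max_left _ _)))
        rw [List.length_cons]
        omega
  refine h ρ h1 ?_
  rw [lg_loc (B := B') fun u hu => hB u (hu.trans ((le_max_left _ _).trans (le_max_right _ _))),
    cl_loc (B := B') fun u hu => hB u (hu.trans ((le_max_right _ _).trans (le_max_right _ _)))]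
  exact hiff

theorem dense_Gj (E : Oracle) (j : Jt) : Dense (Gj E j) := by
  obtain ⟨t, N, M', σ, l, b⟩ := j
  rw [dense_iff_inter_open]
  rintro U hU ⟨B₀, hB₀⟩
  obtain ⟨I, u, hu1, hu2⟩ := isOpen_pi_iff.1 hU B₀ hB₀
  obtain ⟨A, hA1, x, hx⟩ := core E t N M' σ (fun i => l.getD i 0) b B₀ (I.sup List.length)
  refine ⟨A, hu2 fun z hz => ?_, x, hx⟩
  rw [hA1 z (Finset.le_sup (f := List.length) hz)]
  exact (hu1 z hz).2

theorem lg_eq (E A : Oracle) (t : ℕ) : Lg t (join E A) = Hd t A := by
  ext ⟨x, k⟩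
  unfold Lg Hd
  rw [Set.mem_ofPred_eq, Set.mem_ofPred_eq]
  refine exists_congr fun w => and_congr Iff.rfl ?_
  refine qs_congr (fun s => ?_) t (fun i _ => rfl) false _
  have hm1 : hP t k = (hP t k - 1) + 1 := by
    unfold hP
    omega
  have h1 : Tail Mask (join E A) (hP t k * (Nat.log 2 x.length + 1)) (hP t k) s ↔
      s.length + 1 ≤ hP t k * (Nat.log 2 x.length + 1) ∧ A s = true := by
    conv_lhs =>
      rw [show Tail Mask (join E A) (hP t k * (Nat.log 2 x.length + 1)) (hP t k) s =
        Tail Mask (join E A) (hP t k * (Nat.log 2 x.length + 1)) ((hP t k - 1) + 1) s by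
          rw [← hm1]]
    exact tail_Mask_iff (join E A) _ _ s
  exact h1

theorem main (E : Oracle) : ∀ᶠ A in residual Oracle, ∀ t : ℕ,
    InW (join E A) (t + 1) (Hd t A) ∧ ∀ b, ¬ InWide (join E A) b t (Hd t A) := by
  have hcn := CC.poly_countable
  have h1 : ∀ᶠ A in residual Oracle, ∀ j : Jt, A ∈ Gj E j :=
    eventually_countable_forall.2 fun j => residual_of_dense_open (open_Gj E j) (dense_Gj E j)
  filter_upwards [h1] with A hA t
  rw [← lg_eq E A t]
  refine ⟨lg_mem (join E A) t, fun b => ?_⟩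
  rintro ⟨π, h, R, M', ⟨N, hN⟩, hP⟩
  obtain ⟨x, hx⟩ := hA (t, N, M', π (kk N), (List.range (t + 4)).map fun i => h i (kk N), b)
  have hH : ∀ i < t + 4, ((List.range (t + 4)).map fun i => h i (kk N)).getD i 0 =
      h i (kk N) := by
    intro i hi
    simp [List.getD, hi]
  refine hx _ (hN _) ?_
  rw [hP x (kk N)]
  unfold Cl
  show _ ↔ Qs (fun i => ((List.range (t + 4)).map fun i => h i (kk N)).getD i 0 *
    (Nat.log 2 x.length + 1)) (Tail M' (join E A)
      (((List.range (t + 4)).map fun i => h i (kk N)).getD t 0 * (Nat.log 2 x.length + 1) ^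
        ((List.range (t + 4)).map fun i => h i (kk N)).getD (t + 1) 0)
      (((List.range (t + 4)).map fun i => h i (kk N)).getD (t + 2) 0 * (Nat.log 2 x.length + 1) ^
        ((List.range (t + 4)).map fun i => h i (kk N)).getD (t + 3) 0)) t b _
  rw [hH t (by omega), hH (t + 1) (by omega), hH (t + 2) (by omega), hH (t + 3) (by omega)]
  refine qs_congr (fun s => Iff.rfl) t (fun i hi => ?_) b _
  rw [hH i (by omega)]

end Pool.Agent.TH678.GS
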