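import Pool.Agent.TH678.GS.Defs
import Pool.Agent.TH678.EL.Run
import Pool.Agent.H622R2.Exp.YAux

/-! The inclusions, and the algorithms -/

set_option autoImplicit false

namespace Pool.Agent.TH678.GS

open Pool.Agent.NPC Pool.Agent.H622R2 Pool.Agent.H620R2.Gauge Pool.Agent.H622R2.Exp
  Pool.Agent.TH678.ETH Pool.Agent.TH678.WP Pool.Agent.TH678.HW

/-- the algorithm which ignores the string `v` -/
noncomputable def skp (M : Alg) : Alg :=
  ⟨fun z => M.D (pairBits (unpair (unpair z).1).2 (unpair z).2), by
    refine polyTime_of_poly_list ((poly_of_polyTime M.poly).comp (poly_pairBits ?_ ?_))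
    · exact Poly.snd (poly_unpair.comp (Poly.fst poly_unpair))
    · exact Poly.snd poly_unpair, 1⟩

theorem run_skp (M : Alg) (B : Oracle) (v u : List Bool) : ∀ (r : ℕ) (a : List Bool),
    (skp M).run B (pairBits v u) r a = M.run B u r a := by
  intro r
  induction r with
  | zero => exact fun a => rfl
  | succ r ih =>
    intro a
    have hD : (skp M).D (pairBits (pairBits v u) a) = M.D (pairBits u a) := by
      unfold skp
      simp only [unpair_pairBits]
    rw [Alg.run, Alg.run, hD]
    rcases M.D (pairBits u a) with _ | ⟨b, q⟩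
    · rfl
    · cases b with
      | true => rfl
      | false => exact ih _

theorem tail_skp (M : Alg) (A : Oracle) (n m : ℕ) (v u : List Bool) :
    Tail (skp M) A n m (pairBits v u) ↔ Tail M A n m u := by
  unfold Tail
  rw [run_skp]

/-- the algorithm which outputs its input -/
noncomputable def Mid : Alg :=
  ⟨fun z => true :: (unpair z).1,
    polyTime_of_poly_list (Poly.cons (NPC.Poly.const true) (Poly.fst poly_unpair)), 1⟩

theorem tail_Mid (A : Oracle) (n m : ℕ) (u : List Bool) : Tail Mid A n m u ↔ u = [true] := by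
  have hD : ∀ a, Mid.D (pairBits u a) = true :: u := by
    intro a
    unfold Mid
    simp only [unpair_pairBits]
  unfold Tail
  rw [Alg.run, hD]
  simp

/-- the algorithm which asks its input -/
noncomputable def Mask : Alg :=
  ⟨fun z => if (unpair z).2 = [] then false :: true :: (unpair z).1 else true :: (unpair z).2, by
    refine polyTime_of_poly_list (Poly.ite (Poly.decide_eq (Poly.snd poly_unpair)
      (NPC.Poly.const _)) ?_ ?_)
    · exact Poly.cons (NPC.Poly.const false) (Poly.cons (NPC.Poly.const true)
        (Poly.fst poly_unpair))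
    · exact Poly.cons (NPC.Poly.const true) (Poly.snd poly_unpair), 1⟩

theorem tail_Mask_iff (A : Oracle) (n m : ℕ) (u : List Bool) :
    Tail Mask A n (m + 1) u ↔ u.length + 1 ≤ n ∧ A (true :: u) = true := by
  have hD : ∀ a, Mask.D (pairBits u a) = if a = [] then false :: true :: u else true :: a := by
    intro a
    unfold Mask
    simp only [unpair_pairBits]
  have h1 : Tail Mask A n (m + 1) u ↔ upTo n A (true :: u) = true := by
    unfold Tail
    rw [Alg.run, hD, if_pos rfl]
    simp only [List.nil_append]
    rw [Alg.run, hD, if_neg (by simp)]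
    simp
  rw [h1]
  unfold upTo
  rw [Bool.and_eq_true, decide_eq_true_iff, List.length_cons]

theorem qs_congr {m m' : ℕ → ℕ} {T T' : List Bool → Prop} (hT : ∀ s, T s ↔ T' s) : ∀ (t : ℕ),
    (∀ i < t, m i = m' i) → ∀ (b : Bool) (s : List Bool), Qs m T t b s ↔ Qs m' T' t b s := by
  intro t
  induction t with
  | zero => exact fun _ b s => hT s
  | succ t ih =>
    intro hm b s
    have ih := ih fun i hi => hm i (by omega)
    cases b with
    | true =>
      show (∃ v : List Bool, v.length ≤ m t ∧ Qs m T t false (pairBits v s)) ↔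
        ∃ v : List Bool, v.length ≤ m' t ∧ Qs m' T' t false (pairBits v s)
      rw [hm t (by omega)]
      exact exists_congr fun v => and_congr_right fun _ => ih _ _
    | false =>
      show (∀ v : List Bool, v.length ≤ m t → Qs m T t true (pairBits v s)) ↔
        ∀ v : List Bool, v.length ≤ m' t → Qs m' T' t true (pairBits v s)
      rw [hm t (by omega)]
      exact forall_congr' fun v => forall_congr' fun _ => ih _ _

theorem qs_dummy {n : ℕ} {T T' : List Bool → Prop} (h : ∀ v s, T' (pairBits v s) ↔ T s) :
    ∀ (t : ℕ) (b : Bool) (s : List Bool),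
      Qs (fun _ => n) T' (t + 1) b s ↔ Qs (fun _ => n) T t b s := by
  intro t
  induction t with
  | zero =>
    intro b s
    cases b with
    | true =>
      show (∃ v : List Bool, v.length ≤ n ∧ T' (pairBits v s)) ↔ T s
      constructor
      · rintro ⟨v, _, hv⟩
        exact (h v s).1 hv
      · exact fun hs => ⟨[], Nat.zero_le _, (h _ s).2 hs⟩
    | false =>
      show (∀ v : List Bool, v.length ≤ n → T' (pairBits v s)) ↔ T s
      constructor
      · exact fun hs => (h _ s).1 (hs [] (Nat.zero_le _))
      · exact fun hs v _ => (h v s).2 hs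
  | succ t ih =>
    intro b s
    cases b with
    | true => exact exists_congr fun v => and_congr_right fun _ => ih _ _
    | false => exact forall_congr' fun v => forall_congr' fun _ => ih _ _

theorem inW_succ {A : Oracle} {t : ℕ} {P : Set (List Bool × ℕ)} (h : InW A t P) :
    InW A (t + 1) P := by
  cases t with
  | zero =>
    obtain ⟨π, L, hπ, ⟨V, hV, hL⟩, hP⟩ := h
    refine ⟨π, fun _ => 0, V, skp Mid, hπ, Computable.const 0, hV, fun x k => ?_⟩
    rw [hP, hL]
    constructor
    · intro h
      refine ⟨[], Nat.zero_le _, ?_⟩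
      show Tail (skp Mid) A _ _ _
      rw [tail_skp, tail_Mid]
      exact h
    · rintro ⟨w, _, hw⟩
      have hw' : Tail (skp Mid) A (0 * (Nat.log 2 x.length + 1)) 0
        (pairBits w (V (pairBits (π k) x))) := hw
      rwa [tail_skp, tail_Mid] at hw'
  | succ t =>
    obtain ⟨π, h, R, M, hπ, hh, hR, hP⟩ := h
    refine ⟨π, h, R, skp M, hπ, hh, hR, fun x k => ?_⟩
    rw [hP]
    exact exists_congr fun w => and_congr_right fun _ =>
      (qs_dummy (fun v s => tail_skp M A _ _ v s) t false _).symm

theorem inW_wide {A : Oracle} {t : ℕ} {P : Set (List Bool × ℕ)} (h : InW A t P) :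
    InWide A true t P := by
  cases t with
  | zero =>
    obtain ⟨π, L, hπ, ⟨V, hV, hL⟩, hP⟩ := h
    refine ⟨π, fun _ _ => 0, V, Mid, hV, fun x k => ?_⟩
    rw [hP, hL]
    show _ ↔ Tail Mid A _ _ _
    rw [tail_Mid]
  | succ t =>
    obtain ⟨π, h, R, M, hπ, hh, hR, hP⟩ := h
    obtain ⟨H, h0, h1, h2, h3, h4, h5⟩ : ∃ H : ℕ → ℕ → ℕ, (∀ i < t, ∀ k, H i k = 1) ∧
        (∀ k, H t k = h k) ∧ (∀ k, H (t + 1) k = h k) ∧ (∀ k, H (t + 1 + 1) k = 1) ∧
        (∀ k, H (t + 1 + 2) k = h k) ∧ ∀ k, H (t + 1 + 3) k = 0 := by
      refine ⟨fun i k => if i < t then 1 else if i = t + 2 then 1 else if i = t + 4 then 0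
        else h k, fun i hi k => ?_, fun k => ?_, fun k => ?_, fun k => ?_, fun k => ?_, fun k => ?_⟩
      · exact if_pos hi
      · beta_reduce
        rw [if_neg (by omega), if_neg (by omega), if_neg (by omega)]
      · beta_reduce
        rw [if_neg (by omega), if_neg (by omega), if_neg (by omega)]
      · beta_reduce
        rw [if_neg (by omega), if_pos (by omega)]
      · beta_reduce
        rw [if_neg (by omega), if_neg (by omega), if_neg (by omega)]
      · beta_reduce
        rw [if_neg (by omega), if_neg (by omega), if_pos (by omega)]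
    refine ⟨π, H, R, M, hR, fun x k => ?_⟩
    rw [hP]
    show _ ↔ ∃ w : List Bool, w.length ≤ H t k * (Nat.log 2 x.length + 1) ∧ _
    rw [h1, h2, h3, h4, h5, pow_one, pow_zero, mul_one]
    refine exists_congr fun w => and_congr_right fun _ => ?_
    refine qs_congr (fun s => Iff.rfl) t (fun i hi => ?_) _ _
    rw [h0 i hi, one_mul]

/-- the length bound in the hard language -/
def hP (t k : ℕ) : ℕ := 2 * k + (3 * t + 8)

/-- **The hard language.** -/
def Lg (t : ℕ) (A : Oracle) : Set (List Bool × ℕ) :=
  {p | ∃ w : List Bool, w.length ≤ hP t p.2 * (Nat.log 2 p.1.length + 1) ∧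
    Qs (fun _ => Nat.log 2 p.1.length + 1)
      (Tail Mask A (hP t p.2 * (Nat.log 2 p.1.length + 1)) (hP t p.2)) t false
      (pairBits w (unpair p.1).1)}

theorem isFP_poly {A : Oracle} {f : List Bool → List Bool} (hf : Poly f) : IsFP A f := by
  refine ⟨⟨fun z => true :: f (unpair z).1, polyTime_of_poly_list
    (Poly.cons (NPC.Poly.const true) (hf.comp (Poly.fst poly_unpair))), 1⟩, fun x => ?_⟩
  unfold Alg.out
  have h1 : Polynomial.eval x.length (1 : Polynomial ℕ) = 1 := by simp
  simp only [h1]
  rw [Alg.run]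
  simp only [unpair_pairBits]

theorem lg_mem (A : Oracle) (t : ℕ) : InW A (t + 1) (Lg t A) := by
  refine ⟨fun _ => [], hP t, fun z => (unpair (unpair z).2).1, Mask, Computable.const _, ?_,
    isFP_poly (Poly.fst (poly_unpair.comp (Poly.snd poly_unpair))), fun x k => ?_⟩
  · refine Primrec.to_comp ?_
    exact Primrec.nat_add.comp (Primrec.nat_mul.comp (Primrec.const 2) Primrec.id)
      (Primrec.const (3 * t + 8))
  · simp only [unpair_pairBits]
    exact Iff.rfl

end Pool.Agent.TH678.GS
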