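import Pool.Agent.TH678.GS.Dt
import Pool.Agent.TH678.RS.Diag

/-! The oracles with a hidden forest -/

set_option autoImplicit false

namespace Pool.Agent.TH678.GS

open Pool.Agent.NPC Pool.Agent.H622R2 Pool.Agent.H620R2.Gauge Pool.Agent.H591R3.PHG
  Pool.Agent.TH678.ETH Pool.Agent.TH678.HW

open Classical in
/-- the oracle -/
noncomputable def Az (L : ℕ) (B₀ : Oracle) (w₀ : List Bool) (M t : ℕ) (lf : List Bool → Bool)
    (β : Bool) : Oracle := fun u =>
  if u.length ≤ L then B₀ u else if Vd w₀ M t u then xor (lf u) β else false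

theorem az_short {L : ℕ} {B₀ : Oracle} {w₀ : List Bool} {M t : ℕ} {lf : List Bool → Bool}
    {β : Bool} {u : List Bool} (hu : u.length ≤ L) : Az L B₀ w₀ M t lf β u = B₀ u := by
  unfold Az
  rw [if_pos hu]

theorem az_off {L : ℕ} {B₀ : Oracle} {w₀ : List Bool} {M t : ℕ} {lf : List Bool → Bool}
    {β : Bool} {u : List Bool} (hu : L < u.length) (hv : ¬ Vd w₀ M t u) :
    Az L B₀ w₀ M t lf β u = false := by
  unfold Az
  rw [if_neg (by omega), if_neg hv]

theorem az_on {L : ℕ} {B₀ : Oracle} {w₀ : List Bool} {M t : ℕ} {lf : List Bool → Bool}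
    {β : Bool} {u : List Bool} (hu : L < u.length) (hv : Vd w₀ M t u) :
    Az L B₀ w₀ M t lf β u = xor (lf u) β := by
  unfold Az
  rw [if_neg (by omega), if_pos hv]

theorem lg_iff {E : Oracle} {L : ℕ} {B₀ : Oracle} {w₀ : List Bool} {M t κ q : ℕ} {lf : List Bool → Bool}
    {x : List Bool} (hq : Nat.log 2 x.length = q) (hL : L < (unpair x).1.length)
    (hM : M ≤ hP t κ * (q + 1))
    (hn : 2 * M + 1 + (unpair x).1.length + t * (2 * (q + 1) + 1) + 1 ≤ hP t κ * (q + 1))
    {as : List ℕ} (a : ℕ) (has : as.length = t) :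
    (x, κ) ∈ Lg t (join E (Az L B₀ w₀ M t lf (bt t false))) ↔
      ev (q + 1) M w₀ (a :: as) lf (unpair x).1 = false := by
  set A := Az L B₀ w₀ M t lf (bt t false) with hA
  set n := hP t κ * (q + 1) with hn'
  have hm1 : hP t κ = (hP t κ - 1) + 1 := by
    unfold hP
    omega
  have hT : ∀ s, Tail Mask (join E A) n (hP t κ) s ↔ s.length + 1 ≤ n ∧ A s = true := by
    intro s
    rw [hm1]
    exact tail_Mask_iff (join E A) n _ s
  have e1 : (x, κ) ∈ Lg t (join E A) ↔ ∃ w : List Bool, w.length ≤ n ∧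
      Qs (fun _ => q + 1) (Tail Mask (join E A) n (hP t κ)) t false (pairBits w (unpair x).1) := by
    unfold Lg
    rw [Set.mem_ofPred_eq]
    simp only [hq, hn']
  rw [e1, ev_eq, has]
  have e2 : topl M w₀ ((lift (q + 1))^[t] lf) (unpair x).1 = false ↔
      ∃ w : List Bool, w.length ≤ M ∧ w.take w₀.length = w₀ ∧
        (lift (q + 1))^[t] lf (pairBits w (unpair x).1) = true := by
    simp only [topl, decide_eq_false_iff_not]
    push Not
    simp only [ne_eq, Bool.not_eq_false]
  rw [e2]
  have hvd : ∀ w : List Bool, Vd w₀ M 0 (pairBits w (unpair x).1) ↔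
      w.take w₀.length = w₀ ∧ w.length ≤ M := by
    intro w
    unfold Vd dn
    rw [unpair_pairBits]
  have hlen : ∀ w : List Bool, L < (pairBits w (unpair x).1).length := by
    intro w
    rw [length_pairBits]
    omega
  have key : ∀ w : List Bool, Vd w₀ M 0 (pairBits w (unpair x).1) →
      (Qs (fun _ => q + 1) (Tail Mask (join E A) n (hP t κ)) t false
          (pairBits w (unpair x).1) ↔
        (lift (q + 1))^[t] lf (pairBits w (unpair x).1) = true) := by
    intro w hw
    refine qs_iff (w₀ := w₀) (M := M) (L := L) (t := t) (n := n - 1) (β := bt t false)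
      (fun s hv h1 h2 => ?_) t 0 false _ (by omega) rfl hw (hlen w) ?_
    · rw [hT, hA, az_on h1 hv]
      constructor
      · rintro ⟨_, h3⟩
        revert h3
        cases lf s <;> cases bt t false <;> simp
      · intro h3
        refine ⟨by omega, ?_⟩
        rw [h3]
        cases bt t false <;> rfl
    · rw [length_pairBits]
      have h3 := ((hvd w).1 hw).2
      omega
  constructor
  · rintro ⟨w, _, hw⟩
    by_cases hv : Vd w₀ M 0 (pairBits w (unpair x).1)
    · have h1 := (hvd w).1 hv
      exact ⟨w, h1.2, h1.1, (key w hv).1 hw⟩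
    · exfalso
      refine qs_off (w₀ := w₀) (M := M) (L := L) (t := t) (m := q + 1)
        (T := Tail Mask (join E A) n (hP t κ)) (fun s hs h1 h2 => ?_) t 0 false _ (by omega) hv
        (hlen w) hw
      rw [hT, hA, az_off h1 hs] at h2
      exact Bool.false_ne_true h2.2
  · rintro ⟨w, h1, h2, h3⟩
    exact ⟨w, h1.trans hM, (key w ((hvd w).2 ⟨h2, h1⟩)).2 h3⟩

/-- an unseen prefix -/
theorem exists_unseen {S : Finset (List Bool)} {p M t : ℕ} (h : S.card < 2 ^ p) :
    ∃ w₀ : List Bool, w₀.length = p ∧ ∀ q ∈ S, ¬ Vd w₀ M t q := by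
  classical
  by_contra hcon
  push Not at hcon
  have h1 := Finset.card_le_card_of_injOn (s := (Finset.univ : Finset (Fin p → Bool)))
    (t := S.image fun q => (unpair (dn t q)).1.take p)
    (fun f => List.ofFn f) (fun f _ => by
      obtain ⟨q, hq, hv⟩ := hcon (List.ofFn f) List.length_ofFn
      rw [Finset.mem_coe, Finset.mem_image]
      refine ⟨q, hq, ?_⟩
      have := hv.1
      rwa [List.length_ofFn] at this)
    (fun f _ f' _ h => List.ofFn_injective h)
  rw [Finset.card_univ, Fintype.card_fun, Fintype.card_bool, Fintype.card_fin] at h1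
  have h2 := Finset.card_image_le (s := S) (f := fun q => (unpair (dn t q)).1.take p)
  omega

end Pool.Agent.TH678.GS
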