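import Pool.Agent.TH678.GS.Incl
import Pool.Agent.H591R3.PHG.Main

/-! The forests of NOR gates and the hard language -/

set_option autoImplicit false

namespace Pool.Agent.TH678.GS

open Pool.Agent.NPC Pool.Agent.H620R2.Gauge Pool.Agent.H591R3.PHG

/-- the number with the given bits -/
def nv : List Bool → ℕ
  | [] => 0
  | b :: l => b.toNat + 2 * nv l

theorem nv_bitsOf : ∀ (n j : ℕ), j < 2 ^ n → nv (bitsOf n j) = j := by
  intro n
  induction n with
  | zero =>
    intro j hj
    rw [pow_zero] at hj
    have : j = 0 := by omega
    subst this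
    rfl
  | succ n ih =>
    intro j hj
    show (j % 2 == 1).toNat + 2 * nv (bitsOf n (j / 2)) = j
    rw [ih (j / 2) (by rw [pow_succ] at hj; omega)]
    rcases Nat.mod_two_eq_zero_or_one j with h | h
    · rw [h]
      show 0 + 2 * (j / 2) = j
      omega
    · rw [h]
      show 1 + 2 * (j / 2) = j
      omega

/-- the index of a string -/
def ix (a : ℕ) (v : List Bool) : Fin (2 ^ a) := ⟨nv v % 2 ^ a, Nat.mod_lt _ (by positivity)⟩

theorem ix_bitsOf {a : ℕ} (i : Fin (2 ^ a)) : ix a (bitsOf a i.val) = i := by
  unfold ix
  apply Fin.ext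
  show nv (bitsOf a i.val) % 2 ^ a = i.val
  rw [nv_bitsOf a i.val i.isLt, Nat.mod_eq_of_lt i.isLt]

/-- on the top level, the first `p` bits are dropped -/
def cut (p : ℕ) : List ℕ → List Bool → List Bool
  | [], v => v.drop p
  | _ :: _, v => v

/-- the node which belongs to a string -/
def dec (p U : ℕ) : (as : List ℕ) → List Bool → Idx (Fin (2 ^ U)) (pw as)
  | [], s => ix U s
  | a :: as, s => Prod.mk (dec p U as (unpair s).2) (ix a (cut p as (unpair s).1))

open Classical in
/-- NOR over the strings of at most `m` bits -/
noncomputable def lift (m : ℕ) (v : List Bool → Bool) (s : List Bool) : Bool :=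
  decide (∀ w : List Bool, w.length ≤ m → v (pairBits w s) = false)

open Classical in
/-- NOR over the strings of at most `M` bits with the prefix `w₀` -/
noncomputable def topl (M : ℕ) (w₀ : List Bool) (v : List Bool → Bool) (s : List Bool) : Bool :=
  decide (∀ w : List Bool, w.length ≤ M → w.take w₀.length = w₀ → v (pairBits w s) = false)

/-- all levels -/
noncomputable def ev (m M : ℕ) (w₀ : List Bool) : List ℕ → (List Bool → Bool) → List Bool → Bool
  | [], lf => lf
  | [_], lf => topl M w₀ lf
  | _ :: b :: as, lf => ev m M w₀ (b :: as) (lift m lf)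

theorem ev_eq (m M : ℕ) (w₀ : List Bool) : ∀ (as : List ℕ) (a : ℕ) (lf : List Bool → Bool),
    ev m M w₀ (a :: as) lf = topl M w₀ ((lift m)^[as.length] lf) := by
  intro as
  induction as with
  | nil => exact fun a lf => rfl
  | cons b as ih =>
    intro a lf
    show ev m M w₀ (b :: as) (lift m lf) = _
    rw [ih b (lift m lf), List.length_cons, Function.iterate_succ_apply]

theorem Tr_ev {m M U : ℕ} {w₀ : List Bool} : ∀ (as : List ℕ), as ≠ [] → (∀ a ∈ as, a ≤ m) →
    (∀ a ∈ as, w₀.length + a ≤ M) →
    ∀ (z : Idx (Fin (2 ^ U)) (pw as) → Bool) (j : Fin (2 ^ U)),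
      Tr (pw as) z j = ev m M w₀ as (fun s => z (dec w₀.length U as s)) (bitsOf U j.val) := by
  intro as
  induction as with
  | nil => exact fun h => absurd rfl h
  | cons a as ih =>
    intro _ ham haM z j
    have ha := ham a (List.mem_cons_self ..)
    have ha2 := haM a (List.mem_cons_self ..)
    cases as with
    | nil =>
      show Tr [2 ^ a] z j = topl M w₀ (fun s => z (dec w₀.length U [a] s)) (bitsOf U j.val)
      unfold topl
      show decide (∀ i : Fin (2 ^ a), z (j, i) = false) = _
      refine decide_eq_decide.2 ⟨fun h w _ _ => ?_, fun h i => ?_⟩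
      · show z (ix U (unpair (pairBits w (bitsOf U j.val))).2,
          ix a ((unpair (pairBits w (bitsOf U j.val))).1.drop w₀.length)) = false
        rw [unpair_pairBits]
        show z (ix U (bitsOf U j.val), _) = false
        rw [ix_bitsOf]
        exact h _
      · have h1 := h (w₀ ++ bitsOf a i.val) (by
          rw [List.length_append, length_bitsOf]
          exact ha2) (by rw [List.take_left'] ; rfl)
        have h2 : z (ix U (unpair (pairBits (w₀ ++ bitsOf a i.val) (bitsOf U j.val))).2,
          ix a ((unpair (pairBits (w₀ ++ bitsOf a i.val) (bitsOf U j.val))).1.drop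
            w₀.length)) = false := h1
        rw [unpair_pairBits] at h2
        have h3 : z (ix U (bitsOf U j.val), ix a ((w₀ ++ bitsOf a i.val).drop w₀.length)) =
          false := h2
        rwa [List.drop_left', ix_bitsOf, ix_bitsOf] at h3
        rfl
    | cons b as =>
      have h1 := ih (by simp) (fun a' ha' => ham a' (List.mem_cons_of_mem _ ha'))
        (fun a' ha' => haM a' (List.mem_cons_of_mem _ ha'))
        (fun g => decide (∀ i : Fin (2 ^ a), z (g, i) = false)) j
      refine Eq.trans h1 ?_
      show ev m M w₀ (b :: as) _ _ = ev m M w₀ (b :: as) _ _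
      congr 1
      funext s
      unfold lift
      refine decide_eq_decide.2 ⟨fun h v _ => ?_, fun h i => ?_⟩
      · show z (dec w₀.length U (b :: as) (unpair (pairBits v s)).2,
          ix a (unpair (pairBits v s)).1) = false
        rw [unpair_pairBits]
        exact h _
      · have h2 : z (dec w₀.length U (b :: as) (unpair (pairBits (bitsOf a i.val) s)).2,
          ix a (unpair (pairBits (bitsOf a i.val) s)).1) = false :=
          h (bitsOf a i.val) (by rw [length_bitsOf]; exact ha)
        rw [unpair_pairBits] at h2
        have h3 : z (dec w₀.length U (b :: as) s, ix a (bitsOf a i.val)) = false := h2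
        rwa [ix_bitsOf] at h3

/-- the type of the last quantifier -/
def bt : ℕ → Bool → Bool
  | 0, b => b
  | i + 1, b => bt i (!b)

/-- the rest after `t` pairs -/
def dn : ℕ → List Bool → List Bool
  | 0, s => s
  | t + 1, s => dn t (unpair s).2

/-- the string belongs to the hidden block -/
def Vd (w₀ : List Bool) (M t : ℕ) (s : List Bool) : Prop :=
  (unpair (dn t s)).1.take w₀.length = w₀ ∧ (unpair (dn t s)).1.length ≤ M

theorem vd_pair {w₀ : List Bool} {M t : ℕ} {v s : List Bool} :
    Vd w₀ M (t + 1) (pairBits v s) ↔ Vd w₀ M t s := by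
  have e : dn (t + 1) (pairBits v s) = dn t s := by
    show dn t (unpair (pairBits v s)).2 = dn t s
    rw [unpair_pairBits]
  unfold Vd
  rw [e]

theorem lift_true {m : ℕ} {v : List Bool → Bool} {s : List Bool} :
    lift m v s = true ↔ ∀ w : List Bool, w.length ≤ m → v (pairBits w s) = false := by
  simp only [lift, decide_eq_true_eq]

theorem lift_false {m : ℕ} {v : List Bool → Bool} {s : List Bool} :
    lift m v s = false ↔ ¬ ∀ w : List Bool, w.length ≤ m → v (pairBits w s) = false := by
  simp only [lift, decide_eq_false_iff_not]

theorem qs_iff {w₀ : List Bool} {m M n L t : ℕ} {T : List Bool → Prop} {lf : List Bool → Bool}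
    {β : Bool} (H : ∀ s : List Bool, Vd w₀ M t s → L < s.length → s.length ≤ n →
      (T s ↔ lf s = !β)) :
    ∀ (i j : ℕ) (b : Bool) (s : List Bool), j + i = t → bt i b = β → Vd w₀ M j s →
      L < s.length → s.length + i * (2 * m + 1) ≤ n →
      (Qs (fun _ => m) T i b s ↔ (lift m)^[i] lf s = !b) := by
  intro i
  induction i with
  | zero =>
    intro j b s hj hb hv h1 h2
    have hj' : j = t := by omega
    subst hj'
    have hb' : b = β := hb
    subst hb'
    exact H s hv h1 (by omega)
  | succ i ih =>
    intro j b s hj hb hv h1 h2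
    have hstep : ∀ v : List Bool, v.length ≤ m →
        (Qs (fun _ => m) T i (!b) (pairBits v s) ↔ (lift m)^[i] lf (pairBits v s) = !(!b)) := by
      intro v hv'
      refine ih (j + 1) (!b) (pairBits v s) (by omega) hb (vd_pair.2 hv) ?_ ?_
      · rw [length_pairBits]
        omega
      · rw [length_pairBits]
        have e1 : (i + 1) * (2 * m + 1) = i * (2 * m + 1) + (2 * m + 1) := by ring
        omega
    rw [Function.iterate_succ_apply']
    cases b with
    | true =>
      show (∃ v : List Bool, v.length ≤ m ∧ Qs (fun _ => m) T i false (pairBits v s)) ↔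
        lift m ((lift m)^[i] lf) s = false
      rw [lift_false]
      constructor
      · rintro ⟨v, hv1, hv2⟩ hall
        have h3 := (hstep v hv1).1 hv2
        have h4 := hall v hv1
        have h5 : (lift m)^[i] lf (pairBits v s) = false := h4
        rw [h5] at h3
        exact Bool.noConfusion h3
      · intro hn
        by_contra hcon
        refine hn fun v hv1 => ?_
        by_contra h5
        refine hcon ⟨v, hv1, (hstep v hv1).2 ?_⟩
        have h6 : (lift m)^[i] lf (pairBits v s) = true := by
          rw [← Bool.not_eq_false]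
          exact h5
        rw [h6]
        rfl
    | false =>
      show (∀ v : List Bool, v.length ≤ m → Qs (fun _ => m) T i true (pairBits v s)) ↔
        lift m ((lift m)^[i] lf) s = true
      rw [lift_true]
      refine forall_congr' fun v => forall_congr' fun hv1 => ?_
      exact hstep v hv1

theorem qs_off {w₀ : List Bool} {m M L t : ℕ} {T : List Bool → Prop}
    (H : ∀ s : List Bool, ¬ Vd w₀ M t s → L < s.length → ¬ T s) :
    ∀ (i j : ℕ) (b : Bool) (s : List Bool), j + i = t → ¬ Vd w₀ M j s →
      L < s.length → ¬ Qs (fun _ => m) T i b s := by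
  intro i
  induction i with
  | zero =>
    intro j b s hj hv h1
    have hj' : j = t := by omega
    subst hj'
    exact H s hv h1
  | succ i ih =>
    intro j b s hj hv h1 hq
    cases b with
    | true =>
      obtain ⟨v, _, hv2⟩ := hq
      exact ih (j + 1) false (pairBits v s) (by omega) (fun h => hv (vd_pair.1 h))
        (by rw [length_pairBits]; omega) hv2
    | false =>
      exact ih (j + 1) true (pairBits [] s) (by omega) (fun h => hv (vd_pair.1 h))
        (by rw [length_pairBits]; omega) (hq [] (Nat.zero_le _))

end Pool.Agent.TH678.GS
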